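import Pool.Agent.Helper30.TG.Spec

/-!
# TG, part LIN: shears
-/

set_option autoImplicit false

namespace Pool.Agent.Helper89.TG.LIN

open Pool.Agent.Helper30.TriFace Pool.Agent.Helper30.TG Set
open scoped Classical

/-- the shear -/
def shL (c : ℝ) : (ℝ × ℝ) ≃ₗ[ℝ] (ℝ × ℝ) where
  toFun x := (x.1 + c * x.2, x.2)
  invFun x := (x.1 - c * x.2, x.2)
  map_add' x y := by
    ext
    · simp; ring
    · simp
  map_smul' r x := by
    ext
    · simp; ring
    · simp
  left_inv x := by
    ext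
    · simp
    · simp
  right_inv x := by
    ext
    · simp
    · simp

/-- the shear as a homeomorphism -/
def shH (c : ℝ) : (ℝ × ℝ) ≃ₜ (ℝ × ℝ) where
  toEquiv := (shL c).toEquiv
  continuous_toFun := by
    show Continuous fun x : ℝ × ℝ => (x.1 + c * x.2, x.2)
    fun_prop
  continuous_invFun := by
    show Continuous fun x : ℝ × ℝ => (x.1 - c * x.2, x.2)
    fun_prop

lemma shH_apply (c : ℝ) (x : ℝ × ℝ) : shH c x = shL c x := rfl

lemma hull (c : ℝ) (s : Set (ℝ × ℝ)) : shH c '' convexHull ℝ s = convexHull ℝ (shH c '' s) :=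
  (shL c : (ℝ × ℝ) →ₗ[ℝ] (ℝ × ℝ)).image_convexHull s

lemma seg (c : ℝ) (a b : ℝ × ℝ) : shH c '' segment ℝ a b = segment ℝ (shH c a) (shH c b) :=
  image_segment ℝ (shL c : (ℝ × ℝ) →ₗ[ℝ] (ℝ × ℝ)).toAffineMap a b

/-- the sheared drawing -/
def sh {n : ℕ} (D : ConvexDrawing n) (c : ℝ) : ConvexDrawing n where
  pt i := shH c (D.pt i)
  convexPosition := by
    intro s x hx
    refine D.convexPosition s x ?_
    have h1 : (fun i => shH c (D.pt i)) '' s = shH c '' (D.pt '' s) := by
      rw [image_image]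
    rw [h1, ← hull] at hx
    obtain ⟨y, hy, e⟩ := hx
    rwa [(shH c).injective e] at hy

variable {n : ℕ}

lemma sh_range (D : ConvexDrawing n) (c : ℝ) : range (sh D c).pt = shH c '' range D.pt := by
  rw [← range_comp]
  rfl

lemma sh_edges (D : ConvexDrawing n) (c : ℝ) : edges (sh D c) = shH c '' edges D := by
  ext x
  constructor
  · rintro ⟨i, j, hij, hx⟩
    have hx' : x ∈ segment ℝ (shH c (D.pt i)) (shH c (D.pt j)) := hx
    rw [← seg] at hx'
    obtain ⟨y, hy, e⟩ := hx'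
    exact ⟨y, ⟨i, j, hij, hy⟩, e⟩
  · rintro ⟨y, ⟨i, j, hij, hy⟩, rfl⟩
    refine ⟨i, j, hij, ?_⟩
    show shH c y ∈ segment ℝ (shH c (D.pt i)) (shH c (D.pt j))
    rw [← seg]
    exact mem_image_of_mem _ hy

lemma sh_dom (D : ConvexDrawing n) (c : ℝ) :
    convexHull ℝ (range (sh D c).pt) \ edges (sh D c) =
      shH c '' (convexHull ℝ (range D.pt) \ edges D) := by
  rw [sh_range, sh_edges, ← hull, image_diff (shH c).injective]

lemma sh_face (D : ConvexDrawing n) (c : ℝ) {F : Set (ℝ × ℝ)} (h : IsFace D F) :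
    IsFace (sh D c) (shH c '' F) := by
  obtain ⟨x, hx, rfl⟩ := h
  refine ⟨shH c x, ?_, ?_⟩
  · rw [sh_dom]
    exact mem_image_of_mem _ hx
  · rw [sh_dom]
    exact (shH c).image_connectedComponentIn hx

lemma sh_three (D : ConvexDrawing n) (c : ℝ) {F : Set (ℝ × ℝ)} (h : IsThreeFace D F) :
    IsThreeFace (sh D c) (shH c '' F) := by
  obtain ⟨h1, a, b, d, h2, rfl⟩ := h
  refine ⟨sh_face D c h1, shH c a, shH c b, shH c d, ?_, ?_⟩
  · have h3 := h2.map' (shL c : (ℝ × ℝ) →ₗ[ℝ] (ℝ × ℝ)).toAffineMap (shL c).injective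
    have e : ((shL c : (ℝ × ℝ) →ₗ[ℝ] (ℝ × ℝ)).toAffineMap : (ℝ × ℝ) → (ℝ × ℝ)) ∘ ![a, b, d] =
        ![shH c a, shH c b, shH c d] := by
      ext i
      fin_cases i <;> rfl
      fin_cases i <;> rfl
    rwa [e] at h3
  · rw [(shH c).image_interior, hull]
    congr 2
    rw [image_insert_eq, image_insert_eq, image_singleton]

lemma sh_sh (D : ConvexDrawing n) (c : ℝ) : sh (sh D c) (-c) = D := by
  have : (sh (sh D c) (-c)).pt = D.pt := by
    funext i
    show shH (-c) (shH c (D.pt i)) = D.pt i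
    ext
    · show (D.pt i).1 + c * (D.pt i).2 + -c * (D.pt i).2 = (D.pt i).1
      ring
    · rfl
  cases h : sh (sh D c) (-c)
  cases D
  rw [h] at this
  simp only at this
  subst this
  rfl

lemma inv_img (c : ℝ) (F : Set (ℝ × ℝ)) : shH c '' (shH (-c) '' F) = F := by
  rw [image_image]
  have : ∀ x, shH c (shH (-c) x) = x := by
    intro x
    ext
    · show x.1 + -c * x.2 + c * x.2 = x.1
      ring
    · rfl
  simp_rw [this, image_id']

lemma three_image (D : ConvexDrawing n) (c : ℝ) :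
    {F | IsThreeFace (sh D c) F} = (fun F => shH c '' F) '' {F | IsThreeFace D F} := by
  ext F
  constructor
  · intro hF
    refine ⟨shH (-c) '' F, ?_, inv_img c F⟩
    have h := sh_three (sh D c) (-c) hF
    rwa [sh_sh] at h
  · rintro ⟨G, hG, rfl⟩
    exact sh_three D c hG

theorem main : S_LIN := by
  intro n D c
  refine ⟨sh D c, fun i => rfl, ?_, ?_⟩
  · unfold numThreeFaces
    rw [three_image]
    exact ncard_image_of_injective _ (image_injective.2 (shH c).injective)
  · intro hG x hx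
    obtain ⟨y, rfl⟩ := (shH c).surjective x
    have hy : y ∉ range D.pt := by
      rintro ⟨i, rfl⟩
      exact hx ⟨i, rfl⟩
    have e : {e : Fin n × Fin n | e.1 < e.2 ∧ shH c y ∈ segment ℝ ((sh D c).pt e.1)
        ((sh D c).pt e.2)} = {e : Fin n × Fin n | e.1 < e.2 ∧ y ∈ segment ℝ (D.pt e.1)
        (D.pt e.2)} := by
      ext e
      refine and_congr_right fun _ => ?_
      show shH c y ∈ segment ℝ (shH c (D.pt e.1)) (shH c (D.pt e.2)) ↔ _
      rw [← seg]
      exact (shH c).injective.mem_set_image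
    rw [e]
    exact hG y hy

end Pool.Agent.Helper89.TG.LIN
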