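import Pool.Agent.Helper89.TG.LIN
import Pool.Agent.Helper30.TG.Ori

/-!
# TG, parts SHR and GEN
-/

set_option autoImplicit false

namespace Pool.Agent.Helper89.TG.SHR

open Pool.Agent.Helper30.TriFace Pool.Agent.Helper30.TG Set
open scoped Classical

variable {n : ℕ}

/-- ordering a pair -/
def srt (e : Fin n × Fin n) : Fin n × Fin n := if e.1 < e.2 then e else (e.2, e.1)

lemma generic_relabel (D D' : ConvexDrawing n) (σ : Fin n ≃ Fin n) (h : D'.pt = D.pt ∘ σ)
    (hG : IsGeneric D) : IsGeneric D' := by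
  intro x hx
  have hx' : x ∉ range D.pt := by
    rintro ⟨i, rfl⟩
    refine hx ⟨σ.symm i, ?_⟩
    rw [h]
    simp
  refine le_trans ?_ (hG x hx')
  set T := {e : Fin n × Fin n | e.1 < e.2 ∧ x ∈ segment ℝ (D.pt e.1) (D.pt e.2)} with hT
  refine ncard_le_ncard_of_injOn (fun e => srt (σ e.1, σ e.2)) ?_ ?_ (toFinite T)
  · rintro e ⟨h1, h2⟩
    rw [h] at h2
    simp only [Function.comp_apply] at h2
    have hne : σ e.1 ≠ σ e.2 := fun h' => h1.ne (σ.injective h')
    simp only [srt]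
    by_cases h3 : σ e.1 < σ e.2
    · rw [if_pos h3]
      exact ⟨h3, h2⟩
    · rw [if_neg h3]
      refine ⟨lt_of_le_of_ne (not_lt.1 h3) hne.symm, ?_⟩
      simp only
      rwa [segment_symm]
  · rintro e ⟨h1, -⟩ e' ⟨h1', -⟩ heq
    simp only [srt] at heq
    have key : ∀ a b c d : Fin n, a < b → c < d → (σ a, σ b) = (σ c, σ d) → a = c ∧ b = d := by
      intro a b c d _ _ h
      rw [Prod.mk.injEq] at h
      exact ⟨σ.injective h.1, σ.injective h.2⟩
    have key2 : ∀ a b c d : Fin n, a < b → c < d → (σ a, σ b) = (σ d, σ c) → False := by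
      intro a b c d h1 h2 h
      rw [Prod.mk.injEq] at h
      have e1 := σ.injective h.1
      have e2 := σ.injective h.2
      subst e1 e2
      exact lt_asymm h1 h2
    by_cases h3 : σ e.1 < σ e.2 <;> by_cases h4 : σ e'.1 < σ e'.2
    · rw [if_pos h3, if_pos h4] at heq
      obtain ⟨e1, e2⟩ := key _ _ _ _ h1 h1' heq
      exact Prod.ext e1 e2
    · rw [if_pos h3, if_neg h4] at heq
      exact (key2 _ _ _ _ h1 h1' heq).elim
    · rw [if_neg h3, if_pos h4] at heq
      exact (key2 _ _ _ _ h1' h1 heq.symm).elim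
    · rw [if_neg h3, if_neg h4] at heq
      simp only [Prod.mk.injEq] at heq
      exact Prod.ext (σ.injective heq.2) (σ.injective heq.1)

theorem main : S_SHR := by
  intro n D hn
  obtain ⟨σ, hσ⟩ := exists_ccw (by omega) D.convexPosition
  obtain ⟨D1, h1, h2⟩ := num_relabel D σ
  have hinj : Function.Injective D1.pt := D1.convexPosition.injective
  -- a slope which separates the abscissas
  have hfin : {c : ℝ | ∃ i j : Fin n, i ≠ j ∧ (D1.pt i).1 + c * (D1.pt i).2 =
      (D1.pt j).1 + c * (D1.pt j).2}.Finite := by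
    have e : {c : ℝ | ∃ i j : Fin n, i ≠ j ∧ (D1.pt i).1 + c * (D1.pt i).2 =
        (D1.pt j).1 + c * (D1.pt j).2} = ⋃ i : Fin n, ⋃ j : Fin n, {c : ℝ | i ≠ j ∧
        (D1.pt i).1 + c * (D1.pt i).2 = (D1.pt j).1 + c * (D1.pt j).2} := by
      ext c
      simp
    rw [e]
    refine finite_iUnion fun i => finite_iUnion fun j => Set.Subsingleton.finite ?_
    rintro c ⟨hij, hc⟩ c' ⟨-, hc'⟩
    by_cases hy : (D1.pt i).2 = (D1.pt j).2
    · exfalso
      rw [hy] at hc
      exact hij (hinj (Prod.ext (by linarith) hy))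
    · have h3 : (c - c') * ((D1.pt i).2 - (D1.pt j).2) = 0 := by linear_combination hc - hc'
      rcases mul_eq_zero.1 h3 with h4 | h4
      · linarith
      · exact absurd (by linarith) hy
  obtain ⟨c, hc⟩ := hfin.infinite_compl.nonempty
  obtain ⟨D', h3, h4, h5⟩ := LIN.main n D1 c
  refine ⟨D', fun i => if h : i < n then D'.pt ⟨i, h⟩ else 0, ?_, ⟨?_, ?_⟩, h4.trans h2, ?_⟩
  · intro i
    simp
  · intro i j k hij hjk hk
    simp only [dif_pos (show i < n by omega), dif_pos (show j < n by omega), dif_pos hk]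
    have h6 := hσ ⟨i, by omega⟩ ⟨j, by omega⟩ ⟨k, hk⟩ hij hjk
    rw [h3, h3, h3, h1]
    have e : ∀ a b d : ℝ × ℝ, det3 (a.1 + c * a.2, a.2) (b.1 + c * b.2, b.2)
        (d.1 + c * d.2, d.2) = det3 a b d := by
      intro a b d
      unfold det3
      simp only
      ring
    rw [e]
    exact h6
  · intro i j hij hj
    simp only [dif_pos (show i < n by omega), dif_pos hj]
    rw [h3, h3]
    simp only
    intro h
    exact hc ⟨⟨i, by omega⟩, ⟨j, hj⟩, by
      intro h'
      rw [Fin.mk.injEq] at h'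
      omega, h⟩
  · exact fun hG => h5 (generic_relabel D D1 σ h1 hG)

end Pool.Agent.Helper89.TG.SHR

namespace Pool.Agent.Helper89.TG.GEN

open Pool.Agent.Helper30.TriFace Pool.Agent.Helper30.TG Set
open scoped Classical

theorem main (hXC : S_XC) : S_GEN := by
  intro n D p hp hn hP hG x hx
  obtain ⟨h1, h2⟩ := hXC p n hn hP
  obtain ⟨o1, o2, -⟩ := Pool.Agent.Helper30.TG.ori p n hP
  refine le_antisymm ?_ (h2 x hx)
  -- the point is not a vertex
  have hx' : x ∉ range D.pt := by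
    rintro ⟨k, rfl⟩
    obtain ⟨e, he, -, -, -, hon, -⟩ := (h1 _).1 hx
    have hk := hp k
    rw [← hk] at hon
    obtain ⟨ha, hb⟩ := hon
    by_cases e1 : (k : ℕ) = e.1
    · rw [e1, sub_self, zero_mul] at hb
      exact lt_irrefl _ hb
    by_cases e2 : (k : ℕ) = e.2
    · rw [e2, sub_self, mul_zero] at hb
      exact lt_irrefl _ hb
    exact o2 e he k k.2 e1 e2 ha
  refine le_trans ?_ (hG x hx')
  set T := {e : Fin n × Fin n | e.1 < e.2 ∧ x ∈ segment ℝ (D.pt e.1) (D.pt e.2)} with hT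
  have hsub : (((EE n).filter fun e => On p e x : Finset (ℕ × ℕ)) : Set (ℕ × ℕ)) ⊆
      (fun e : Fin n × Fin n => ((e.1 : ℕ), (e.2 : ℕ))) '' T := by
    intro e he
    rw [Finset.mem_coe, Finset.mem_filter] at he
    obtain ⟨he, ha, hb⟩ := he
    have heE := he
    simp only [EE, Finset.mem_filter, Finset.mem_product, Finset.mem_range] at he
    obtain ⟨⟨hl1, hl2⟩, hlt⟩ := he
    refine ⟨(⟨e.1, hl1⟩, ⟨e.2, hl2⟩), ⟨hlt, ?_⟩, rfl⟩
    have q1 : D.pt ⟨e.1, hl1⟩ = p e.1 := (hp ⟨e.1, hl1⟩).symm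
    have q2 : D.pt ⟨e.2, hl2⟩ = p e.2 := (hp ⟨e.2, hl2⟩).symm
    show x ∈ segment ℝ (D.pt ⟨e.1, hl1⟩) (D.pt ⟨e.2, hl2⟩)
    rw [q1, q2]
    obtain ⟨r1, r2, -⟩ := o1 e heE
    set A := p e.1 with hA
    set B := p e.2 with hB
    have hAB : B.1 - A.1 ≠ 0 := by
      intro h0
      have : B.1 = A.1 := by linarith
      rw [this] at hb
      nlinarith [mul_self_nonneg (x.1 - A.1)]
    set s : ℝ := (x.1 - A.1) / (B.1 - A.1) with hs
    have hs1 : s * (B.1 - A.1) = x.1 - A.1 := by rw [hs]; field_simp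
    have hs2 : (1 - s) * (B.1 - A.1) = B.1 - x.1 := by rw [sub_mul, hs1]; ring
    have hsq : 0 < (B.1 - A.1) ^ 2 := by positivity
    have hprod : 0 < s * (1 - s) := by
      have e3 : s * (1 - s) * (B.1 - A.1) ^ 2 = -((x.1 - A.1) * (x.1 - B.1)) := by
        calc _ = (s * (B.1 - A.1)) * ((1 - s) * (B.1 - A.1)) := by ring
          _ = _ := by rw [hs1, hs2]; ring
      have e4 : 0 < s * (1 - s) * (B.1 - A.1) ^ 2 := by rw [e3]; linarith
      exact (pos_iff_pos_of_mul_pos e4).2 hsq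
    have hs0 : 0 < s ∧ s < 1 := by
      constructor <;> nlinarith
    refine ⟨1 - s, s, by linarith [hs0.2], hs0.1.le, by ring, ?_⟩
    have t1 : x.1 = (1 - s) * A.1 + s * B.1 := by linarith
    ext
    · simp only [Prod.fst_add, Prod.smul_fst, smul_eq_mul]
      exact t1.symm
    · simp only [Prod.snd_add, Prod.smul_snd, smul_eq_mul]
      rw [ha, r1, r2]
      unfold ln
      rw [t1]
      ring
  have e0 : mu p n x = ((((EE n).filter fun e => On p e x : Finset (ℕ × ℕ)) :
      Set (ℕ × ℕ))).ncard := by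
    rw [ncard_coe_finset]
    rfl
  rw [e0]
  exact (ncard_le_ncard hsub (toFinite _)).trans (ncard_image_le (toFinite _))

end Pool.Agent.Helper89.TG.GEN
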